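import Pool.Agent.H715.TW.Stm

/-!
Project TW (helper715), task LOC: `q`-adic splitting of the simplest cubic when `v_q(a) < 0`.
-/

set_option autoImplicit false

open Filter Topology

namespace Pool.Agent.H935.TW

open Pool.Agent.H528R2 (Vge Inert Test)
open Pool.Agent.H715.TW

variable {q : ℕ} [hq : Fact q.Prime]

/-- the norm form over a field -/
def NF {F : Type} [Field F] (a u v w : F) : F :=
  u ^ 3 + a * u ^ 2 * v + (a ^ 2 + 2 * a + 6) * u ^ 2 * w - (a + 3) * u * v ^ 2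
    - (a ^ 2 + 3 * a + 3) * u * v * w + (a ^ 2 + 4 * a + 9) * u * w ^ 2
    + v ^ 3 + a * v ^ 2 * w - (a + 3) * v * w ^ 2 + w ^ 3

theorem cast_Nf (a u v w : ℚ) : ((Nf a u v w : ℚ) : ℚ_[q]) = NF (a : ℚ_[q]) u v w := by
  unfold Nf NF
  push_cast
  ring

theorem norm_rat (x : ℚ) (hx : x ≠ 0) : ‖(x : ℚ_[q])‖ = (q : ℝ) ^ (-padicValRat q x) := by
  rw [Padic.eq_padicNorm, padicNorm.eq_zpow_of_nonzero hx]
  push_cast
  rfl

theorem vge_of_norm {x : ℚ} {K : ℤ} (h : ‖(x : ℚ_[q])‖ ≤ (q : ℝ) ^ (-K)) : Vge q K x := by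
  by_cases hx : x = 0
  · exact Or.inl hx
  · right
    rw [norm_rat x hx] at h
    have h1 : (1 : ℝ) < q := by exact_mod_cast hq.out.one_lt
    have := (zpow_le_zpow_iff_right₀ h1).1 h
    omega

/-- a root near `0` -/
theorem root (a : ℚ) (ha : padicValRat q a < 0) : ∃ ρ : ℚ_[q], ‖ρ‖ < 1 ∧
    ρ ^ 3 - a * ρ ^ 2 - (a + 3) * ρ - 1 = 0 := by
  have ha0 : a ≠ 0 := by
    rintro rfl
    simp at ha
  have hq1 : (1 : ℝ) < q := by exact_mod_cast hq.out.one_lt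
  have hb : ‖((a⁻¹ : ℚ) : ℚ_[q])‖ < 1 := by
    rw [norm_rat _ (inv_ne_zero ha0), Pool.Agent.H528R2.val_inv hq.out, neg_neg]
    exact zpow_lt_one_of_neg₀ hq1 ha
  set b : ℤ_[q] := ⟨((a⁻¹ : ℚ) : ℚ_[q]), hb.le⟩ with hbdef
  have hb1 : ‖b‖ < 1 := hb
  set F : Polynomial ℤ_[q] := Polynomial.C b * Polynomial.X ^ 3 - Polynomial.X ^ 2 -
    Polynomial.C (1 + 3 * b) * Polynomial.X - Polynomial.C b with hF
  have e1 : Polynomial.aeval (0 : ℤ_[q]) F = -b := by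
    simp [hF]
  have e2 : Polynomial.aeval (0 : ℤ_[q]) F.derivative = -(1 + 3 * b) := by
    simp [hF]
  have e3 : ‖(1 + 3 * b : ℤ_[q])‖ = 1 := by
    have h3 : ‖(3 * b : ℤ_[q])‖ < 1 := by
      rw [norm_mul]
      exact lt_of_le_of_lt (mul_le_of_le_one_left (norm_nonneg _) (PadicInt.norm_le_one _)) hb1
    have := PadicInt.norm_add_eq_max_of_ne (p := q) (q := 1) (r := 3 * b) (by
      rw [norm_one]
      exact h3.ne')
    rw [this, norm_one, max_eq_left h3.le]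
  obtain ⟨z, hz, hz1, -⟩ := hensels_lemma (F := F) (a := (0 : ℤ_[q])) (by
    rw [e1, e2, norm_neg, norm_neg, e3]
    simpa using hb1)
  rw [e2, norm_neg, e3, sub_zero] at hz1
  refine ⟨z, hz1, ?_⟩
  have h1 : b * z ^ 3 - z ^ 2 - (1 + 3 * b) * z - b = 0 := by
    rw [← hz]
    simp [hF]
  have h2 : (b : ℚ_[q]) * (z : ℚ_[q]) ^ 3 - (z : ℚ_[q]) ^ 2 - (1 + 3 * (b : ℚ_[q])) * z - b = 0 := by
    exact_mod_cast congrArg (fun x : ℤ_[q] => (x : ℚ_[q])) h1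
  have h3 : (b : ℚ_[q]) = (a : ℚ_[q])⁻¹ := by
    rw [hbdef]
    push_cast
    rfl
  have ha' : (a : ℚ_[q]) ≠ 0 := by exact_mod_cast ha0
  rw [h3] at h2
  field_simp at h2
  linear_combination h2

/-- the three roots and the norm form -/
theorem NF_eq {F : Type} [Field F] (a r u v w : F) (h : r ^ 3 - a * r ^ 2 - (a + 3) * r - 1 = 0)
    (h0 : r ≠ 0) (h1 : 1 + r ≠ 0) : NF a u v w =
      (u + v * r + w * r ^ 2) * (u + v * (-1 / (1 + r)) + w * (-1 / (1 + r)) ^ 2) *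
        (u + v * (-(1 + r) / r) + w * (-(1 + r) / r) ^ 2) := by
  have ha : a = (r ^ 3 - 3 * r - 1) / (r * (1 + r)) := by
    rw [eq_div_iff (mul_ne_zero h0 h1)]
    linear_combination -h
  subst ha
  unfold NF
  field_simp
  ring

theorem loc : S_LOC := by
  intro q a e K hq ha he
  have : Fact q.Prime := ⟨hq⟩
  have hq1 : (1 : ℝ) < q := by exact_mod_cast hq.one_lt
  obtain ⟨r, hr, hf⟩ := root (q := q) a ha
  have hr0 : r ≠ 0 := by
    rintro rfl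
    simp at hf
  have hr1 : 1 + r ≠ 0 := by
    intro h
    have : r = -1 := by linear_combination h
    rw [this, norm_neg, norm_one] at hr
    exact lt_irrefl _ hr
  have he' : (e : ℚ_[q]) ≠ 0 := by exact_mod_cast he
  -- the roots are distinct
  set r2 : ℚ_[q] := -1 / (1 + r) with hr2
  set r3 : ℚ_[q] := -(1 + r) / r with hr3
  have n1 : ‖1 + r‖ = 1 := by
    have := Padic.add_eq_max_of_ne (p := q) (q := 1) (r := r) (by
      rw [norm_one]
      exact hr.ne')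
    rw [this, norm_one, max_eq_left hr.le]
  have n2 : ‖r2‖ = 1 := by
    rw [hr2, norm_div, norm_neg, norm_one, n1, div_one]
  have n3 : 1 < ‖r3‖ := by
    rw [hr3, norm_div, norm_neg, n1, lt_div_iff₀ (norm_pos_iff.2 hr0), one_mul]
    exact hr
  have d2 : r - r2 ≠ 0 := by
    intro h
    rw [sub_eq_zero.1 h, n2] at hr
    exact lt_irrefl _ hr
  have d3 : r - r3 ≠ 0 := by
    intro h
    rw [sub_eq_zero.1 h] at hr
    exact lt_irrefl _ (hr.trans n3)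
  -- the point over `ℚ_q`
  set c : ℚ_[q] := (e - 1) / ((r - r2) * (r - r3)) with hc
  have hval : NF (a : ℚ_[q]) (1 + c * (r2 * r3)) (-c * (r2 + r3)) c = e := by
    rw [NF_eq (a : ℚ_[q]) r _ _ _ hf hr0 hr1, ← hr2, ← hr3]
    have e1 : 1 + c * (r2 * r3) + -c * (r2 + r3) * r + c * r ^ 2 = e := by
      have : c * ((r - r2) * (r - r3)) = e - 1 := div_mul_cancel₀ _ (mul_ne_zero d2 d3)
      linear_combination this
    have e2 : 1 + c * (r2 * r3) + -c * (r2 + r3) * r2 + c * r2 ^ 2 = 1 := by ring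
    have e3 : 1 + c * (r2 * r3) + -c * (r2 + r3) * r3 + c * r3 ^ 2 = 1 := by ring
    rw [e1, e2, e3, mul_one, mul_one]
  -- approximation
  set ε : ℝ := min (‖(e : ℚ_[q])‖) (‖(e : ℚ_[q])‖ * (q : ℝ) ^ (-K)) with hε
  have hεp : 0 < ε := lt_min (norm_pos_iff.2 he') (mul_pos (norm_pos_iff.2 he')
    (zpow_pos (by linarith) _))
  have hcont : Continuous (fun p : ℚ_[q] × ℚ_[q] × ℚ_[q] => NF (a : ℚ_[q]) p.1 p.2.1 p.2.2) := by
    unfold NF
    fun_prop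
  have hopen : IsOpen {p : ℚ_[q] × ℚ_[q] × ℚ_[q] | ‖NF (a : ℚ_[q]) p.1 p.2.1 p.2.2 - e‖ < ε} :=
    isOpen_lt (by fun_prop) continuous_const
  have hdense : DenseRange (fun p : ℚ × ℚ × ℚ =>
      ((p.1 : ℚ_[q]), (p.2.1 : ℚ_[q]), (p.2.2 : ℚ_[q]))) := by
    have h : DenseRange (fun x : ℚ => (x : ℚ_[q])) := by
      rw [Metric.denseRange_iff]
      intro x r hr
      obtain ⟨y, hy⟩ := Padic.rat_dense q x hr
      exact ⟨y, by rw [dist_eq_norm]; exact hy⟩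
    exact h.prodMap (h.prodMap h)
  obtain ⟨⟨u, v, w⟩, huvw⟩ := hdense.exists_mem_open hopen
    ⟨(1 + c * (r2 * r3), -c * (r2 + r3), c), by
      show ‖NF (a : ℚ_[q]) _ _ _ - e‖ < ε
      rw [hval, sub_self, norm_zero]
      exact hεp⟩
  have h1 : ‖((Nf a u v w : ℚ) : ℚ_[q]) - e‖ < ε := by
    rw [cast_Nf]
    exact huvw
  have h2 : ‖((Nf a u v w : ℚ) : ℚ_[q])‖ = ‖(e : ℚ_[q])‖ := by
    have h3 : ‖((Nf a u v w : ℚ) : ℚ_[q]) - e‖ < ‖(e : ℚ_[q])‖ := lt_of_lt_of_le h1 (min_le_left _ _)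
    have h4 : ((Nf a u v w : ℚ) : ℚ_[q]) = (((Nf a u v w : ℚ) : ℚ_[q]) - e) + e := by ring
    rw [h4, Padic.add_eq_max_of_ne h3.ne, max_eq_right h3.le]
  have h3 : Nf a u v w ≠ 0 := by
    intro h
    rw [h, Rat.cast_zero, norm_zero] at h2
    exact he' (norm_eq_zero.1 h2.symm)
  refine ⟨u, v, w, h3, vge_of_norm ?_⟩
  have h4 : ((e / Nf a u v w - 1 : ℚ) : ℚ_[q]) =
      -((((Nf a u v w : ℚ) : ℚ_[q]) - e) / ((Nf a u v w : ℚ) : ℚ_[q])) := by
    have h5 : ((Nf a u v w : ℚ) : ℚ_[q]) ≠ 0 := by exact_mod_cast h3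
    rw [Rat.cast_sub, Rat.cast_div, Rat.cast_one]
    field_simp
    ring
  rw [h4, norm_neg, norm_div, h2, div_le_iff₀ (norm_pos_iff.2 he'), mul_comm]
  exact (h1.le).trans (min_le_right _ _)

end Pool.Agent.H935.TW
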